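import Pool.Agent.N641.VB.Stm5

set_option autoImplicit false

/-!
# Project VB (helper641): TR5, translation of formulas along a surjection (helper706, after
helper394)
-/

namespace Pool.Agent.N706.VB

open FirstOrder FirstOrder.Language Pool.Agent.N641.VB

/-- the terms of the relational language are variables -/
theorem tr5_term {M α : Type} (t : (LM M).Term α) : ∃ a, t = Term.var a := by
  cases t with
  | var a => exact ⟨a, rfl⟩
  | func f ts => exact Empty.elim f

/-- substitution of variables in a formula -/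
theorem tr5_sub {L : FirstOrder.Language.{0, 0}} {n m j : ℕ} {α : Type}
    (φ : L.Formula (Fin n ⊕ Fin m)) (a : Fin m → α ⊕ Fin j) :
    ∃ ρ' : L.BoundedFormula (Fin n ⊕ α) j, ∀ (S : L.Structure ℕ) (p : Fin n → ℕ)
      (v : α → ℕ) (xs : Fin j → ℕ),
      @BoundedFormula.Realize L ℕ S _ _ ρ' (Sum.elim p v) xs ↔
        @Formula.Realize L ℕ S _ φ (Sum.elim p fun t => Sum.elim v xs (a t)) := by
  refine ⟨BoundedFormula.relabel (n := j) (k := 0)
    (Sum.elim (fun i => Sum.inl (Sum.inl i))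
      (fun t => Sum.elim (fun x => Sum.inl (Sum.inr x)) Sum.inr (a t))) φ, ?_⟩
  intro S p v xs
  letI := S
  rw [BoundedFormula.realize_relabel]
  unfold Formula.Realize
  have h1 : (Sum.elim (Sum.elim p v) (xs ∘ Fin.castAdd 0) ∘
      Sum.elim (fun i => Sum.inl (Sum.inl i))
        (fun t => Sum.elim (fun x => Sum.inl (Sum.inr x)) Sum.inr (a t))) =
      Sum.elim p (fun t => Sum.elim v xs (a t)) := by
    funext x
    rcases x with i | t
    · rfl
    · rcases h : a t with y | y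
      · simp [h]
      · simp [h]
  rw [h1]
  exact iff_of_eq (congrArg _ (Subsingleton.elim _ _))

theorem tr5_ind {L : FirstOrder.Language.{0, 0}} {M : Type} {n : ℕ}
    (φ : L.Formula (Fin n ⊕ Fin 2)) (ψ : M → L.Formula (Fin n ⊕ Fin 1)) {α : Type} {j : ℕ}
    (ρ : (LM M).BoundedFormula α j) :
    ∃ ρ' : L.BoundedFormula (Fin n ⊕ α) j,
      ∀ (S : L.Structure ℕ) (p : Fin n → ℕ) (bo : BooleanAlgebra ℕ) (mu : ℕ → M) (f : ℕ → ℕ),
        Dec1 S p φ ψ bo mu f → ∀ (v : α → ℕ) (xs : Fin j → ℕ),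
        @BoundedFormula.Realize L ℕ S _ _ ρ' (Sum.elim p v) xs ↔
          @BoundedFormula.Realize (LM M) ℕ (str bo.le mu) _ _ ρ (fun a => f (v a))
            (fun i => f (xs i)) := by
  induction ρ with
  | falsum =>
    exact ⟨BoundedFormula.falsum, fun S p bo mu f _ v xs => Iff.rfl⟩
  | @equal j t₁ t₂ =>
    obtain ⟨a, rfl⟩ := tr5_term t₁
    obtain ⟨b, rfl⟩ := tr5_term t₂
    obtain ⟨ρ₁, h₁⟩ := tr5_sub φ (![a, b] : Fin 2 → α ⊕ Fin j)
    obtain ⟨ρ₂, h₂⟩ := tr5_sub φ (![b, a] : Fin 2 → α ⊕ Fin j)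
    refine ⟨ρ₁ ⊓ ρ₂, fun S p bo mu f hD v xs => ?_⟩
    letI := S
    rw [BoundedFormula.realize_inf, h₁, h₂, hD.le, hD.le]
    have e : ∀ c : α ⊕ Fin j, (Sum.elim (fun a => f (v a)) (fun i => f (xs i)) c : ℕ) =
        f (Sum.elim v xs c) := by
      rintro (c | c) <;> rfl
    change _ ↔ (Sum.elim (fun a => f (v a)) (fun i => f (xs i)) a : ℕ) =
      Sum.elim (fun a => f (v a)) (fun i => f (xs i)) b
    rw [e, e]
    constructor
    · rintro ⟨h3, h4⟩
      exact bo.le_antisymm _ _ h3 h4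
    · intro h3
      constructor
      · change bo.le (f (Sum.elim v xs a)) (f (Sum.elim v xs b))
        rw [h3]
        exact bo.le_refl _
      · change bo.le (f (Sum.elim v xs b)) (f (Sum.elim v xs a))
        rw [h3]
        exact bo.le_refl _
  | @rel j l R ts =>
    choose a ha using fun i => tr5_term (ts i)
    have hts : ts = fun i => Term.var (a i) := funext ha
    subst hts
    cases R with
    | le =>
      obtain ⟨ρ', h⟩ := tr5_sub φ a
      refine ⟨ρ', fun S p bo mu f hD v xs => ?_⟩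
      rw [h, hD.le]
      have e : ∀ c : α ⊕ Fin j, (Sum.elim (fun a => f (v a)) (fun i => f (xs i)) c : ℕ) =
          f (Sum.elim v xs c) := by
        rintro (c | c) <;> rfl
      change _ ↔ bo.le (Sum.elim (fun a => f (v a)) (fun i => f (xs i)) (a 0))
        (Sum.elim (fun a => f (v a)) (fun i => f (xs i)) (a 1))
      rw [e, e]
    | val c =>
      obtain ⟨ρ', h⟩ := tr5_sub (ψ c) a
      refine ⟨ρ', fun S p bo mu f hD v xs => ?_⟩
      rw [h, hD.val c]
      have e : ∀ c : α ⊕ Fin j, (Sum.elim (fun a => f (v a)) (fun i => f (xs i)) c : ℕ) =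
          f (Sum.elim v xs c) := by
        rintro (c | c) <;> rfl
      change _ ↔ mu (Sum.elim (fun a => f (v a)) (fun i => f (xs i)) (a 0)) = c
      rw [e]
  | imp f₁ f₂ ih₁ ih₂ =>
    obtain ⟨ρ₁, h₁⟩ := ih₁
    obtain ⟨ρ₂, h₂⟩ := ih₂
    refine ⟨ρ₁.imp ρ₂, fun S p bo mu f hD v xs => ?_⟩
    exact imp_congr (h₁ S p bo mu f hD v xs) (h₂ S p bo mu f hD v xs)
  | @all j g ih =>
    obtain ⟨ρ₁, h₁⟩ := ih
    refine ⟨ρ₁.all, fun S p bo mu f hD v xs => ?_⟩
    have e : ∀ y : ℕ, (fun i => f ((Fin.snoc xs y : Fin (j + 1) → ℕ) i)) =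
        (Fin.snoc (fun i => f (xs i)) (f y) : Fin (j + 1) → ℕ) := by
      intro y
      exact Fin.comp_snoc (n := j) f xs y
    constructor
    · intro h b
      obtain ⟨y, rfl⟩ := hD.surj b
      rw [← e]
      exact (h₁ S p bo mu f hD v (Fin.snoc xs y)).1 (h y)
    · intro h y
      refine (h₁ S p bo mu f hD v (Fin.snoc xs y)).2 ?_
      rw [e]
      exact h (f y)

theorem TR5 : S_TR5 := by
  intro L M n φ ψ α χ
  obtain ⟨ρ', h⟩ := tr5_ind φ ψ χ
  refine ⟨ρ', fun S p bo mu f hD v => ?_⟩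
  refine (h S p bo mu f hD v _).trans ?_
  exact iff_of_eq (congrArg _ (Subsingleton.elim _ _))

end Pool.Agent.N706.VB

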